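import Pool.Agent.H93.BL.Targets

/-!
# Polygonal billiards: module D1, the set of trapped legs
-/

namespace Pool.Agent.H58.BL.D1

open MeasureTheory Set Pool.Agent.H93.BL

lemma chain_succ_right (hA1a : T_A1a) {κ : Type} (S : HoleSys κ) (n : ℕ) (y z' : κ × ℝ) :
    S.chain (n + 1) y z' ↔ ∃ w, S.chain n y w ∧ S.st w z' := by
  rw [hA1a κ S n 1 y z']
  constructor
  · rintro ⟨w, h1, u, h2, h3⟩
    have h4 : u = z' := h3
    rw [h4] at h2
    exact ⟨w, h1, h2⟩
  · rintro ⟨w, h1, h2⟩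
    exact ⟨w, h1, z', h2, rfl⟩

lemma U_inv (hA1a : T_A1a) {κ : Type} (S : HoleSys κ) {z z' : κ × ℝ} (h : S.st z z') :
    S.U z ↔ S.U z' := by
  constructor
  · rintro (⟨n, y, hc, he⟩ | ⟨n, y, hc, he⟩)
    · cases n with
      | zero =>
        have h1 : z = y := hc
        rw [← h1] at he
        exact absurd h (S.ex_st z z' he)
      | succ n =>
        obtain ⟨w, hw, hc⟩ := hc
        have h1 := S.fn z w z' hw h
        rw [h1] at hc
        exact Or.inl ⟨n, y, hc, he⟩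
    · exact Or.inr ⟨n + 1, y, (chain_succ_right hA1a S n y z').2 ⟨z, hc, h⟩, he⟩
  · rintro (⟨n, y, hc, he⟩ | ⟨n, y, hc, he⟩)
    · exact Or.inl ⟨n + 1, y, ⟨z', h, hc⟩, he⟩
    · cases n with
      | zero =>
        have h1 : y = z' := hc
        rw [h1] at he
        exact absurd h (S.en_st z z' he)
      | succ n =>
        obtain ⟨w, hc, hw⟩ := (chain_succ_right hA1a S n y z').1 hc
        have h1 := S.inj w z z' hw h
        rw [h1] at hc
        exact Or.inr ⟨n, y, hc, he⟩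

/-- points of a two sided orbit are not in `U` -/
lemma not_U_orbit (hA1a : T_A1a) {κ : Type} (S : HoleSys κ) (z : ℤ → κ × ℝ)
    (hz : ∀ n, S.st (z n) (z (n + 1))) (n : ℤ) : ¬ S.U (z n) := by
  have hf : ∀ (m : ℕ) (n : ℤ) (y : κ × ℝ), S.chain m (z n) y → y = z (n + m) := by
    intro m
    induction m with
    | zero =>
      intro n y h
      have h1 : z n = y := h
      rw [← h1]; simp
    | succ m ih =>
      rintro n y ⟨w, hw, hc⟩
      have h1 := S.fn _ _ _ hw (hz n)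
      rw [h1] at hc
      rw [ih (n + 1) y hc]
      have : n + 1 + (m : ℤ) = n + ((m + 1 : ℕ) : ℤ) := by push_cast; ring
      rw [this]
  have hb : ∀ (m : ℕ) (n : ℤ) (y : κ × ℝ), S.chain m y (z n) → y = z (n - m) := by
    intro m
    induction m with
    | zero =>
      intro n y h
      have h1 : y = z n := h
      rw [h1]; simp
    | succ m ih =>
      intro n y h
      obtain ⟨w, hc, hw⟩ := (chain_succ_right hA1a S m y (z n)).1 h
      have h2 := hz (n - 1)
      rw [sub_add_cancel] at h2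
      have h1 := S.inj _ _ _ hw h2
      rw [h1] at hc
      rw [ih (n - 1) y hc]
      have : n - 1 - (m : ℤ) = n - ((m + 1 : ℕ) : ℤ) := by push_cast; ring
      rw [this]
  rintro (⟨m, y, hc, he⟩ | ⟨m, y, hc, he⟩)
  · rw [hf m n y hc] at he
    exact S.ex_st _ _ he (hz (n + m))
  · rw [hb m n y hc] at he
    have h2 := hz (n - m - 1)
    rw [sub_add_cancel] at h2
    exact S.en_st _ _ he h2

theorem pf (hA1a : T_A1a) (hA5 : T_A5) (hL8 : T_L8) (hL1 : T_L1) (hG6 : T_G6) : T_D1 := by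
  intro ι _ P E C hC hCD
  obtain ⟨S, ha, hb, hst, hex, hen, hsad⟩ := hL8 ι P E C hC hCD
  have hfin : Finite (P.Leg E C) := by
    have h1 : (P.Leg E C).Finite :=
      (Set.finite_univ.prod hC).subset fun k hk => ⟨mem_univ _, hk.2.1⟩
    exact h1.to_subtype
  have hA5' := hA5 (P.Leg E C) S (fun n z z' h1 h2 h3 => hsad n z z' h1 h2 h3)
  have hmem : ∀ (k : P.Leg E C) (x : ℂ), x ∈ openSegment ℝ (P.p k.1.1) (P.q k.1.1) →
      S.mem (k, cr k.1.2 x) := by
    intro k x hx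
    obtain ⟨-, h2, h3, -⟩ := hL1 ι P E C k
    have h4 : P.la E C k < cr k.1.2 x ∧ cr k.1.2 x < P.lb E C k := by
      rw [h2, h3 x hx]; exact hx
    show S.a k < cr k.1.2 x ∧ cr k.1.2 x < S.b k
    rw [ha, hb]; exact h4
  have hlz : ∀ (k : P.Leg E C) (x : ℂ), x ∈ openSegment ℝ (P.p k.1.1) (P.q k.1.1) →
      P.lz E C (k, cr k.1.2 x) = (k.1.1, x, k.1.2) := by
    intro k x hx
    obtain ⟨-, h2, h3, -⟩ := hL1 ι P E C k
    show (k.1.1, P.lpt E C k (cr k.1.2 x), k.1.2) = _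
    rw [h3 x hx]
  refine ⟨{k | ∃ h : k ∈ P.Leg E C, ∀ t, S.mem (⟨k, h⟩, t) → ¬ S.U (⟨k, h⟩, t)}, ?_, ?_, ?_⟩
  · rintro j v ⟨h, -⟩
    exact ⟨h.1, h.2.1, h.2.2.1, h.2.2.2.1, h.2.2.2.2⟩
  · intro j x v j' x' v' hG
    obtain ⟨-, -, g3, -, -⟩ := hG6 ι P (j, x, v) (j', x', v') (j', x', v')
    have hinn' : P.inn j' x' v' := g3 hG
    obtain ⟨g1, -, -, -, -⟩ := hG6 ι P (j, x, v) (j', x', v') (j', x', v')
    have hrev := g1 hG
    obtain ⟨hinn, τ, hHit, hx', hv'⟩ := hG
    have hinn : P.inn j x v := hinn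
    have hHit : P.Hit x v j' τ := hHit
    have hx' : x' = x + (τ : ℂ) * v := hx'
    have hv' : v' = P.refl j' v := hv'
    have hG : P.GStep (j, x, v) (j', x', v') := ⟨hinn, τ, hHit, hx', hv'⟩
    have hvv : P.refl j' v' = v := by rw [hv', P.refl_refl]
    -- the step in the interval system
    have hstep : ∀ (h : (j, v) ∈ P.Leg E C) (h' : (j', v') ∈ P.Leg E C),
        S.st (⟨(j, v), h⟩, cr v x) (⟨(j', v'), h'⟩, cr v' x') := by
      intro h h'
      rw [hst]
      show P.GStep (P.lz E C _) (P.lz E C _)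
      rw [hlz ⟨(j, v), h⟩ x hinn.1, hlz ⟨(j', v'), h'⟩ x' hinn'.1]
      exact hG
    constructor
    · rintro ⟨h, hU⟩
      have hzm := hmem ⟨(j, v), h⟩ x hinn.1
      have hzU := hU _ hzm
      have hnot : ¬ (j' ∈ E ∨ v' ∉ C) := by
        intro hor
        apply hzU
        left
        refine ⟨0, _, rfl, ?_⟩
        rw [hex]
        refine ⟨?_, j', τ, ?_, ?_⟩
        · have := hzm
          unfold HoleSys.mem at this
          rw [ha, hb] at this
          exact this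
        · rw [hlz ⟨(j, v), h⟩ x hinn.1]; exact hHit
        · rw [hlz ⟨(j, v), h⟩ x hinn.1]
          show j' ∈ E ∨ P.refl j' v ∉ C
          rw [← hv']; exact hor
      push Not at hnot
      have h' : (j', v') ∈ P.Leg E C := by
        refine ⟨hnot.1, hnot.2, ?_, hinn'.2.1, hinn'.2.2⟩
        show P.refl j' v' ∈ C
        rw [hvv]; exact h.2.1
      refine ⟨h', fun t ht hUt => ?_⟩
      have h5 := hA5' ⟨(j', v'), h'⟩ t (cr v' x') ht (hmem ⟨(j', v'), h'⟩ x' hinn'.1) hUt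
      exact hzU ((U_inv hA1a S (hstep h h')).2 h5)
    · rintro ⟨h', hU⟩
      have hzm := hmem ⟨(j', v'), h'⟩ x' hinn'.1
      have hzU := hU _ hzm
      have hvC : v ∈ C := by
        have : P.refl j' v' ∈ C := h'.2.2.1
        rwa [hvv] at this
      have hnot : ¬ (j ∈ E ∨ P.refl j v ∉ C) := by
        intro hor
        apply hzU
        right
        refine ⟨0, _, rfl, ?_⟩
        rw [hen]
        obtain ⟨-, τ', hHit', -, -⟩ := hrev
        refine ⟨?_, j, τ', ?_, ?_⟩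
        · have := hzm
          unfold HoleSys.mem at this
          rw [ha, hb] at this
          exact this
        · rw [hlz ⟨(j', v'), h'⟩ x' hinn'.1]; exact hHit'
        · rw [hlz ⟨(j', v'), h'⟩ x' hinn'.1]
          show j ∈ E ∨ P.refl j (P.refl j' v') ∉ C
          rw [hvv]; exact hor
      push Not at hnot
      have h : (j, v) ∈ P.Leg E C := ⟨hnot.1, hvC, hnot.2, hinn.2.1, hinn.2.2⟩
      refine ⟨h, fun t ht hUt => ?_⟩
      have h5 := hA5' ⟨(j, v), h⟩ t (cr v x) ht (hmem ⟨(j, v), h⟩ x hinn.1) hUt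
      exact hzU ((U_inv hA1a S (hstep h h')).1 h5)
  · intro f hf n
    have hinn : ∀ n, P.inn (f n).1 (f n).2.1 (f n).2.2 := fun n => (hf n).1.1
    have hleg : ∀ n, ((f n).1, (f n).2.2) ∈ P.Leg E C := by
      intro n
      refine ⟨(hf n).2.1, (hf n).2.2, ?_, (hinn n).2.1, (hinn n).2.2⟩
      obtain ⟨-, τ, -, -, h4⟩ := (hf (n - 1)).1
      rw [sub_add_cancel] at h4
      show P.refl (f n).1 (f n).2.2 ∈ C
      rw [h4, P.refl_refl]
      exact (hf (n - 1)).2.2
    set z : ℤ → P.Leg E C × ℝ := fun n =>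
      (⟨((f n).1, (f n).2.2), hleg n⟩, cr (f n).2.2 (f n).2.1) with hz
    have hzst : ∀ n, S.st (z n) (z (n + 1)) := by
      intro n
      rw [hst]
      show P.GStep (P.lz E C _) (P.lz E C _)
      rw [hlz ⟨((f n).1, (f n).2.2), hleg n⟩ (f n).2.1 (hinn n).1,
        hlz ⟨((f (n + 1)).1, (f (n + 1)).2.2), hleg (n + 1)⟩ (f (n + 1)).2.1 (hinn (n + 1)).1]
      exact (hf n).1
    have hnU := not_U_orbit hA1a S z hzst n
    refine ⟨hleg n, fun t ht hUt => hnU ?_⟩
    exact hA5' ⟨((f n).1, (f n).2.2), hleg n⟩ t (cr (f n).2.2 (f n).2.1) ht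
      (hmem ⟨((f n).1, (f n).2.2), hleg n⟩ (f n).2.1 (hinn n).1) hUt

end Pool.Agent.H58.BL.D1
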