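import Pool.Agent.H93.BL.Targets

/-!
# Polygonal billiards: module G3, first exit
-/

namespace Pool.Agent.H58.BL.G3

open MeasureTheory Set Pool.Agent.H93.BL

theorem pf (hG1 : T_G1) : T_G3 := by
  intro ι _ P y v hv hst
  obtain ⟨ε, hε, hin⟩ := hst
  -- the set of exit times
  set S : Set ℝ := {t | ε / 2 ≤ t ∧ y + (t : ℂ) * v ∉ P.Ω} with hS
  have hcont : Continuous fun t : ℝ => y + (t : ℂ) * v := by fun_prop
  have hScl : IsClosed S := by
    have h1 : IsClosed {t : ℝ | ε / 2 ≤ t} := isClosed_le continuous_const continuous_id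
    have h2 : IsClosed ((fun t : ℝ => y + (t : ℂ) * v) ⁻¹' P.Ωᶜ) :=
      (P.isOpen.isClosed_compl).preimage hcont
    exact h1.inter h2
  have hSbd : BddBelow S := ⟨ε / 2, fun t ht => ht.1⟩
  have hSne : S.Nonempty := by
    obtain ⟨R, hR⟩ := P.isBounded.exists_norm_le
    have hv' : 0 < ‖v‖ := norm_pos_iff.2 hv
    refine ⟨max (ε / 2) ((|R| + ‖y‖ + 1) / ‖v‖), le_max_left _ _, fun hmem => ?_⟩
    have h1 := hR _ hmem
    set t : ℝ := max (ε / 2) ((|R| + ‖y‖ + 1) / ‖v‖) with ht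
    have ht0 : 0 ≤ t := le_trans (by positivity) (le_max_left _ _)
    have ht1 : (|R| + ‖y‖ + 1) / ‖v‖ ≤ t := le_max_right _ _
    have h2 : ‖(t : ℂ) * v‖ = t * ‖v‖ := by
      rw [norm_mul, Complex.norm_real, Real.norm_of_nonneg ht0]
    have h3 : |R| + ‖y‖ + 1 ≤ t * ‖v‖ := by
      rwa [div_le_iff₀ hv'] at ht1
    have h4 : ‖(t : ℂ) * v‖ ≤ ‖y + (t : ℂ) * v‖ + ‖y‖ := by
      have := norm_sub_le (y + (t : ℂ) * v) y
      rwa [add_sub_cancel_left] at this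
    have h5 : R ≤ |R| := le_abs_self R
    linarith
  set t0 : ℝ := sInf S with ht0
  have ht0S : t0 ∈ S := hScl.csInf_mem hSne hSbd
  have ht0pos : 0 < t0 := lt_of_lt_of_le (by positivity) ht0S.1
  have hbefore : ∀ r ∈ Ioo 0 t0, y + (r : ℂ) * v ∈ P.Ω := by
    intro r hr
    by_cases h : r < ε
    · exact hin r ⟨hr.1, h⟩
    · by_contra hn
      have : r ∈ S := ⟨by linarith, hn⟩
      exact absurd (csInf_le hSbd this) (not_le.2 hr.2)
  set x' : ℂ := y + (t0 : ℂ) * v with hx'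
  -- close points of the ray
  have hnear : ∀ ρ > (0 : ℝ), ∃ r ∈ Ioo 0 t0, dist (y + (r : ℂ) * v) x' < ρ := by
    intro ρ hρ
    have hv' : 0 < ‖v‖ := norm_pos_iff.2 hv
    set δ : ℝ := min (t0 / 2) (ρ / (2 * ‖v‖)) with hδ
    have hδpos : 0 < δ := lt_min (by positivity) (by positivity)
    have hδ1 : δ ≤ t0 / 2 := min_le_left _ _
    have hδ2 : δ ≤ ρ / (2 * ‖v‖) := min_le_right _ _
    refine ⟨t0 - δ, ⟨by linarith, by linarith⟩, ?_⟩
    have h1 : (y + ((t0 - δ : ℝ) : ℂ) * v) - x' = ((-δ : ℝ) : ℂ) * v := by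
      rw [hx']; push_cast; ring
    rw [dist_eq_norm, h1, norm_mul, Complex.norm_real, norm_neg, Real.norm_of_nonneg hδpos.le]
    have h2 : δ * ‖v‖ ≤ ρ / (2 * ‖v‖) * ‖v‖ := mul_le_mul_of_nonneg_right hδ2 hv'.le
    have h3 : ρ / (2 * ‖v‖) * ‖v‖ = ρ / 2 := by field_simp
    linarith
  have hxcl : x' ∈ closure P.Ω := by
    rw [Metric.mem_closure_iff]
    intro ρ hρ
    obtain ⟨r, hr, hd⟩ := hnear ρ hρ
    exact ⟨_, hbefore r hr, by rwa [dist_comm]⟩
  have hxfr : x' ∈ frontier P.Ω := by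
    rw [frontier, P.isOpen.interior_eq]
    exact ⟨hxcl, ht0S.2⟩
  have hdisj : ∀ z, z ∈ P.Ω → z ∈ frontier P.Ω → False := by
    intro z hz hf
    rw [frontier, P.isOpen.interior_eq] at hf
    exact hf.2 hz
  rw [P.frontier_eq, mem_iUnion] at hxfr
  obtain ⟨i, hi⟩ := hxfr
  refine ⟨t0, ?_⟩
  rw [← insert_endpoints_openSegment, mem_insert_iff, mem_insert_iff] at hi
  rcases hi with hi | hi | hi
  · right; exact ⟨P.p i, ht0pos, hbefore, hi, i, Or.inl rfl⟩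
  · right; exact ⟨P.q i, ht0pos, hbefore, hi, i, Or.inr rfl⟩
  left
  obtain ⟨ρ, hρ, g1, g2, g3, g4⟩ := hG1 ι P i x' hi
  obtain ⟨r, hr, hd⟩ := hnear ρ hρ
  have hip : ip (y + (r : ℂ) * v - x') (P.n i) = (r - t0) * ip v (P.n i) := by
    have e : y + (r : ℂ) * v - x' = ((r - t0 : ℝ) : ℂ) * v := by
      rw [hx']; push_cast; ring
    rw [e, ip_smul_left]
  rcases lt_trichotomy (ip v (P.n i)) 0 with h | h | h
  · exact ⟨i, ht0pos, hbefore, hi, h⟩
  · exfalso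
    have h1 : ip (y + (r : ℂ) * v - x') (P.n i) = 0 := by rw [hip, h, mul_zero]
    have h2 := g2 _ hd h1
    refine hdisj _ (hbefore r hr) ?_
    rw [P.frontier_eq]
    exact mem_iUnion.2 ⟨i, openSegment_subset_segment ℝ _ _ h2⟩
  · have h1 : ip (y + (r : ℂ) * v - x') (P.n i) < 0 := by
      rw [hip]; exact mul_neg_of_neg_of_pos (by linarith [hr.2]) h
    obtain ⟨j, hj1, hj2⟩ := g4 ⟨_, hd, h1, hbefore r hr⟩
    refine ⟨j, ht0pos, hbefore, ?_, ?_⟩
    · rw [P.openSegment_reversed hj1 hj2]; exact hi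
    · rw [P.n_reversed hj1 hj2, ip_neg_right]; linarith

end Pool.Agent.H58.BL.G3
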