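import Pool.Agent.H93.BL.Targets

/-!
# Polygonal billiards: module M1, almost every phase point has a successor and a predecessor
-/

namespace Pool.Agent.H58.BL.M1

open MeasureTheory Set Pool.Agent.H93.BL

/-- phase points whose ray passes through `w` -/
def Nw {ι : Type} (P : Polygon ι) (i : ι) (w : ℂ) : Set (ℝ × ℝ) :=
  {z | z ∈ P.box i ∧ w ≠ P.pos (i, z) ∧ cr (P.dir (i, z)) (w - P.pos (i, z)) = 0}

lemma continuous_pos {ι : Type} (P : Polygon ι) (i : ι) :
    Continuous fun z : ℝ × ℝ => P.pos (i, z) := by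
  show Continuous fun z : ℝ × ℝ => P.p i + ((z.1 : ℝ) : ℂ) * P.u i
  fun_prop

lemma continuous_dir {ι : Type} (P : Polygon ι) (i : ι) :
    Continuous fun z : ℝ × ℝ => P.dir (i, z) := by
  show Continuous fun z : ℝ × ℝ => P.n i * Complex.exp (((z.2 : ℝ) : ℂ) * Complex.I)
  fun_prop

lemma measurableSet_box {ι : Type} (P : Polygon ι) (i : ι) : MeasurableSet (P.box i) :=
  measurableSet_Ioo.prod measurableSet_Ioo

lemma measurableSet_Nw {ι : Type} (P : Polygon ι) (i : ι) (w : ℂ) :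
    MeasurableSet (Nw P i w) := by
  have h1 : IsOpen {z : ℝ × ℝ | w ≠ P.pos (i, z)} :=
    isOpen_ne_fun continuous_const (continuous_pos P i)
  have h2 : IsClosed {z : ℝ × ℝ | cr (P.dir (i, z)) (w - P.pos (i, z)) = 0} := by
    have hc : Continuous fun z : ℝ × ℝ => cr (P.dir (i, z)) (w - P.pos (i, z)) := by
      have h3 := continuous_pos P i
      have h4 := continuous_dir P i
      unfold cr
      fun_prop
    exact isClosed_eq hc continuous_const
  exact (measurableSet_box P i).inter (h1.measurableSet.inter h2.measurableSet)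

lemma volume_Nw {ι : Type} (P : Polygon ι) (i : ι) (w : ℂ) : volume (Nw P i w) = 0 := by
  rw [Measure.volume_eq_prod, Measure.measure_prod_null (measurableSet_Nw P i w)]
  refine Filter.Eventually.of_forall fun s => ?_
  show volume (Prod.mk s ⁻¹' Nw P i w) = 0
  apply Set.Subsingleton.measure_zero
  rintro φ₁ ⟨h1, h2, h3⟩ φ₂ ⟨h4, h5, h6⟩
  have hb1 : φ₁ ∈ Ioo (-(Real.pi / 2)) (Real.pi / 2) := h1.2
  have hb2 : φ₂ ∈ Ioo (-(Real.pi / 2)) (Real.pi / 2) := h4.2
  set W : ℂ := w - (P.p i + (s : ℂ) * P.u i) with hW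
  have hW0 : W ≠ 0 := by
    intro h0
    exact h2 (sub_eq_zero.1 h0)
  have e1 : cr (P.dir (i, s, φ₁)) W = 0 := h3
  have e2 : cr (P.dir (i, s, φ₂)) W = 0 := h6
  have key : ∀ φ : ℝ, cr (P.dir (i, s, φ)) W =
      -(Real.cos φ * ip (P.u i) W) - Real.sin φ * cr (P.u i) W := by
    intro φ
    rw [P.dir_eq, cr_sub_left, cr_smul_left, cr_smul_left]
    show Real.cos φ * cr (Complex.I * P.u i) W - Real.sin φ * cr (P.u i) W = _
    rw [I_mul_cr]; ring
  rw [key] at e1 e2
  have hsum := ip_sq_add_cr_sq (P.u i) W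
  rw [P.norm_u i] at hsum
  have hWpos : 0 < ‖W‖ := norm_pos_iff.2 hW0
  have hsum' : 0 < ip (P.u i) W ^ 2 + cr (P.u i) W ^ 2 := by rw [hsum]; positivity
  have hs : Real.sin (φ₂ - φ₁) = 0 := by
    rw [Real.sin_sub]
    set a := ip (P.u i) W
    set b := cr (P.u i) W
    have f1 : a * (Real.sin φ₂ * Real.cos φ₁ - Real.cos φ₂ * Real.sin φ₁) = 0 := by
      linear_combination (-Real.sin φ₂) * e1 + Real.sin φ₁ * e2
    have f2 : b * (Real.sin φ₂ * Real.cos φ₁ - Real.cos φ₂ * Real.sin φ₁) = 0 := by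
      linear_combination (Real.cos φ₂) * e1 - Real.cos φ₁ * e2
    have f3 : (a ^ 2 + b ^ 2) * (Real.sin φ₂ * Real.cos φ₁ - Real.cos φ₂ * Real.sin φ₁) = 0 := by
      linear_combination a * f1 + b * f2
    rcases mul_eq_zero.1 f3 with h | h
    · exact absurd h hsum'.ne'
    · exact h
  have h7 := (Real.sin_eq_zero_iff_of_lt_of_lt (by linarith [hb1.1, hb1.2, hb2.1, hb2.2])
    (by linarith [hb1.1, hb1.2, hb2.1, hb2.2])).1 hs
  linarith

theorem pf (hM0 : T_M0) (hG2 : T_G2) (hG3 : T_G3) (hB1 : T_B1) (hB3 : T_B3) (hB4 : T_B4) :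
    T_M1 := by
  intro ι _ P i
  obtain ⟨m1, m2, -, -⟩ := hM0 ι P i {z | ¬ ∃ z', P.Step (i, z) z'}
  have hnull : P.liouville i {z | ¬ ∃ z', P.Step (i, z) z'} = 0 := by
    rw [m1]
    have hsub : {z | ¬ ∃ z', P.Step (i, z) z'} ∩ P.box i ⊆
        ⋃ k : ι, (Nw P i (P.p k) ∪ Nw P i (P.q k)) := by
      rintro z ⟨hz, hbox⟩
      have hph : P.Phase (i, z) := ⟨hbox.1.1, hbox.1.2, hbox.2.1, hbox.2.2⟩
      have hinn := (hB1 ι P (i, z) (i, z)).1 hph
      have hv : P.dir (i, z) ≠ 0 := by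
        intro h0
        have := P.norm_dir (i, z)
        rw [h0, norm_zero] at this
        exact zero_ne_one this
      have hst := hG2 ι P i _ _ hinn.1 hinn.2.2
      obtain ⟨t, ⟨j, hj⟩ | ⟨w, hw⟩⟩ := hG3 ι P _ _ hv hst
      · obtain ⟨z', hz', -⟩ := hB4 ι P (i, z) j t hph hj
        exact absurd ⟨z', hz'⟩ hz
      · obtain ⟨ht, -, hw1, k, hk⟩ := hw
        have hmem : z ∈ Nw P i w := by
          have hd : w - P.pos (i, z) = (t : ℂ) * P.dir (i, z) := by rw [← hw1]; ring
          refine ⟨hbox, ?_, ?_⟩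
          · intro h0
            rw [h0, sub_self] at hd
            rcases mul_eq_zero.1 hd.symm with h | h
            · exact ht.ne' (by exact_mod_cast h)
            · exact hv h
          · rw [hd, cr_smul_right, cr_self, mul_zero]
        rw [mem_iUnion]
        refine ⟨k, ?_⟩
        rcases hk with hk | hk
        · left; rw [← hk]; exact hmem
        · right; rw [← hk]; exact hmem
    refine measure_mono_null hsub ?_
    rw [measure_iUnion_null_iff]
    intro k
    exact measure_union_null (volume_Nw P i _) (volume_Nw P i _)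
  constructor
  · rw [ae_iff]; exact hnull
  · rw [ae_iff]
    refine measure_mono_null ?_ (m2 hnull)
    intro z hz
    show ¬ ∃ z', P.Step (i, (z.1, -z.2)) z'
    rintro ⟨z', hz'⟩
    apply hz
    obtain ⟨-, -, h3⟩ := hB3 ι P (i, (z.1, -z.2)) z' z'
    have h4 := h3 hz'
    refine ⟨(z'.1, z'.2.1, -z'.2.2), ?_⟩
    have h5 : (i, z.1, -(-z.2)) = (i, z) := by rw [neg_neg]
    rw [← h5]
    exact h4

end Pool.Agent.H58.BL.M1
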